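import Pool.Agent.Helper37_BSig.Stmts

/-! # C7: forcing and `Frc` -/

namespace Pool.Agent.BSig

open Filter

namespace H9

theorem nat_or_le (a : ℕ) : ∀ b : ℕ, a ||| b ≤ a + b := by
  induction a using Nat.strong_induction_on with
  | _ a ih =>
    intro b
    rcases Nat.eq_zero_or_pos a with rfl | ha
    · simp
    · have h1 : (a ||| b) / 2 = a / 2 ||| b / 2 := Nat.or_div_two
      have h2 := ih (a / 2) (by omega) (b / 2)
      have h3 : (a ||| b) % 2 = 1 ↔ a % 2 = 1 ∨ b % 2 = 1 := Nat.or_mod_two_eq_one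
      omega

/-- an element all whose members are below `b` is below `pow2 b` -/
theorem lt_pow2_of_mem {e b : MM} (h : ∀ x, Mem x e → x < b) : e < pow2 b := by
  have hi : Int1 (fun x => Mem x e) :=
    Int1.of_delta0 (IsDelta0.mem (IsTerm.var 0) (IsTerm.param e))
  obtain ⟨e', he', h'⟩ := hi.code b
  have : e' = e := mem_ext fun x => by
    rw [h' x]
    exact ⟨fun h1 => h1.2, fun h1 => ⟨h x h1, h1⟩⟩
  rw [← this]; exact he'

theorem le_add_of_union {e a b : MM} (h : ∀ x, Mem x e ↔ Mem x a ∨ Mem x b) : e ≤ a + b := by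
  obtain ⟨f, hf, rfl⟩ := exists_mk a
  obtain ⟨g, hg, rfl⟩ := exists_mk b
  have hb : Bdd (fun n => f n ||| g n) :=
    bdd_of_le (bdd_add hf hg) (Eventually.of_forall fun n => nat_or_le _ _)
  have : e = mk (fun n => f n ||| g n) hb := by
    apply mem_ext
    intro x
    rw [h x]
    obtain ⟨u, hu, rfl⟩ := exists_mk x
    rw [mem_mk, mem_mk, mem_mk, ← eventually_or']
    refine eventually_congr (Eventually.of_forall fun n => ?_)
    rw [Nat.testBit_or, Bool.or_eq_true]
  rw [this, mk_add, mk_le]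
  exact Eventually.of_forall fun n => nat_or_le _ _

theorem add_one_le {x y : MM} : x < y ↔ x + 1 ≤ y := PAExp.discrete x y

theorem add_le_add2 {a b c d : MM} (h : a ≤ b) (h' : c ≤ d) : a + c ≤ b + d := by
  refine (PAExp.add_le_add' _ _ c h).trans ?_
  rw [add_comm b c, add_comm b d]
  exact PAExp.add_le_add' _ _ b h'

theorem lit_neg_le (x : MM) (b : Bool) : lit (x, !b) ≤ lit (x, b) + 1 := by
  have h1 : lit (x, !b) ≤ 2 * x + 1 := by
    unfold lit
    refine add_le_add2 le_rfl ?_
    cases b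
    · simp
    · simp only [Bool.not_true, Bool.false_eq_true, if_false]
      exact PAExp.zero_le' 1
  refine h1.trans ?_
  unfold lit
  exact PAExp.add_le_add' _ _ 1 (le_add_right' _ _)

end H9

open H9 in
theorem frcStmt_proof (hR : RepBasics) (hK : KilStmt) : FrcStmt := by
  classical
  obtain ⟨r1, r2, r3, r4, r5, r6, r7⟩ := hR
  intro φ hφ l R r t hr
  obtain ⟨k1, k2, k3, k4, k5⟩ := hK φ hφ
  constructor
  · rintro ⟨y, hy, hF⟩ s hs hRs
    by_contra hcon
    push Not at hcon
    have hconf : ∀ F ∈ Fam φ l t, Conf (F : Set (MM × Bool)) (s : Set (MM × Bool)) := by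
      intro F hF
      exact hcon F hF
    let s1 : Finset (MM × Bool) := s.filter fun p => lit p ≤ aa l
    let s' : Finset (MM × Bool) := s1 ∪ R
    have hs' : s' ⊆ s := Finset.union_subset (Finset.filter_subset _ _) hRs
    obtain ⟨e1, he1⟩ := r3 s1
    obtain ⟨e, he⟩ := r3 s'
    -- membership
    have hmem : ∀ (S : Finset (MM × Bool)) (f : MM), Rep f S → ∀ u, Mem u f ↔ ∃ p ∈ S, u = lit p := by
      intro S f hf u
      constructor
      · intro hu
        obtain ⟨p, rfl⟩ := r1 u
        refine ⟨p, ?_, rfl⟩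
        have : p ∈ LS f := hu
        rw [← hf] at this
        exact this
      · rintro ⟨p, hp, rfl⟩
        have : p ∈ (S : Set (MM × Bool)) := hp
        rw [hf] at this
        exact this
    have hbound : e ≤ pow2 (aa l + 2) + r := by
      have h1 : e ≤ e1 + r := by
        apply le_add_of_union
        intro u
        rw [hmem s' e he, hmem s1 e1 he1, hmem R r hr]
        constructor
        · rintro ⟨p, hp, rfl⟩
          rcases Finset.mem_union.mp hp with hp | hp
          · exact Or.inl ⟨p, hp, rfl⟩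
          · exact Or.inr ⟨p, hp, rfl⟩
        · rintro (⟨p, hp, rfl⟩ | ⟨p, hp, rfl⟩)
          · exact ⟨p, Finset.mem_union_left _ hp, rfl⟩
          · exact ⟨p, Finset.mem_union_right _ hp, rfl⟩
      have h2 : e1 < pow2 (aa l + 2) := by
        apply lt_pow2_of_mem
        intro u hu
        obtain ⟨p, hp, rfl⟩ := (hmem s1 e1 he1 u).mp hu
        have h3 : lit p ≤ aa l := (Finset.mem_filter.mp hp).2
        have h4 : aa l < aa l + 2 := by
          rw [add_one_le]
          refine add_le_add2 le_rfl ?_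
          have : (1 : MM) ≤ 1 + 1 := le_add_right' _ _
          rwa [one_add_one_eq_two] at this
        exact lt_of_le_of_lt h3 h4
      exact h1.trans (PAExp.add_le_add' _ _ r h2.le)
    have hsub : ∀ x, x ≤ r → Mem x r → Mem x e := by
      intro x _ hx
      rw [hmem R r hr] at hx
      obtain ⟨p, hp, rfl⟩ := hx
      rw [hmem s' e he]
      exact ⟨p, Finset.mem_union_right _ hp, rfl⟩
    have hcrd : Crd e y := by
      have h1 : Crd e ((s'.card : ℕ) : MM) := (r6 e s'.card).mpr ⟨s', he, le_rfl⟩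
      exact r7 e _ _ (hy _).le h1
    have hcfl : ¬ Cfl e e := by
      rw [r5, ← he]
      intro hc
      obtain ⟨x, b, h1, h2⟩ := hc
      exact hs ⟨x, b, hs' h1, hs' h2⟩
    refine hF e hbound ⟨hsub, hcrd, hcfl⟩ ?_
    have h6 : ∃ m : ℕ, Kil φ (aa l) l m t e := by
      rw [← k4]
      intro S hS
      obtain ⟨x, b, hx1, hx2⟩ := hconf S hS
      refine ⟨x, b, hx1, ?_⟩
      rw [← he]
      show (x, !b) ∈ s'
      apply Finset.mem_union_left
      refine Finset.mem_filter.mpr ⟨hx2, ?_⟩
      obtain ⟨_, _, f, hf, hfl, _⟩ := hS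
      have h7 : Mem (lit (x, b)) f := (hmem S f hf _).mpr ⟨_, hx1, rfl⟩
      have h8 : lit (x, b) < aa l := lt_of_lt_of_le (mem_lt h7) hfl
      exact (lit_neg_le x b).trans (add_one_le.mp h8)
    obtain ⟨m, hm⟩ := h6
    exact k5 _ _ _ _ _ _ (hy m).le hm
  · intro hF
    have hi : Int1 (fun m => Frc φ (aa l) l m r t) :=
      Int1.of_delta0 (IsDelta0.frc hφ (IsTerm.param _) (IsTerm.param _) (IsTerm.var 0)
        (IsTerm.param _) (IsTerm.param _))
    obtain ⟨y, hy, hy'⟩ := hi.overspill (by
      intro m e _ h hkil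
      obtain ⟨h1, h2, h3⟩ := h
      obtain ⟨S, hS, _⟩ := (r6 e m).mp h2
      rw [r5, ← hS] at h3
      have hRS : R ⊆ S := by
        intro p hp
        have h4 : Mem (lit p) r := by
          have : p ∈ (R : Set (MM × Bool)) := hp
          rw [hr] at this
          exact this
        have h5 : p ∈ LS e := h1 _ (mem_lt h4).le h4
        rw [← hS] at h5
        exact h5
      obtain ⟨F, hF1, hF2⟩ := hF S h3 hRS
      have h6 := (k4 l t e).mpr ⟨m, hkil⟩ F hF1
      rw [← hS] at h6
      exact hF2 h6)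
    exact ⟨y, hy, hy' y le_rfl⟩

end Pool.Agent.BSig
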